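import Pool.Agent.Helper60.TJ.Main1

set_option autoImplicit false
open MeasureTheory

namespace Pool.Agent.Results.MP_37ff18_mp.TwoFourInfinite2D

open Pool.Agent.Helper60.TJ

/-- **The number of ground states of the two-dimensional Edwards-Anderson model** is 2, 4 or
infinite: let the couplings on the edges of `ℤ²` be independent with the same law `μ`, which is
symmetric and has no atoms. Then almost surely there are exactly two
ground states, or almost surely exactly four, or almost surely infinitely many. -/
theorem result (μ : Measure ℝ) [IsProbabilityMeasure μ] (hμ : ∀ x : ℝ, μ {x} = 0)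
    (hsym : μ.map (fun x => -x) = μ) :
    (∀ᵐ J ∂(Measure.infinitePi fun _ : (ℤ × ℤ) × Bool => μ), {σ | IsGroundState J σ}.encard = 2) ∨
    (∀ᵐ J ∂(Measure.infinitePi fun _ : (ℤ × ℤ) × Bool => μ), {σ | IsGroundState J σ}.encard = 4) ∨
    (∀ᵐ J ∂(Measure.infinitePi fun _ : (ℤ × ℤ) × Bool => μ), {σ | IsGroundState J σ}.Infinite) :=
  main1 μ hμ hsym

end Pool.Agent.Results.MP_37ff18_mp.TwoFourInfinite2D
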